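import Pool.Agent.L0h40.TS.Fin
import Pool.Agent.L0h40.TS.Inf

/-!
# Tate classes on Fermat varieties of a given dimension, in degrees with large prime divisors

Let `m` be prime to the prime `p`. The Tate classes on the Fermat variety of degree `m` and
dimension `n` over the algebraic closure of the field with `p` elements are spanned, apart from
powers of the hyperplane class, by lines indexed by the Tate characters of degree `m` with `n + 2`
entries. We consider Tate characters that are short compared with the odd prime divisors of `m`,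
and ask whether such a character becomes, after raising the degree to a suitable multiple prime
to `p`, a member of the closure of the characters of surfaces and of the standard characters of
Aoki. Let `K` be `gcd (2, m)` times the length of the character. This is shown

* for every length and every number `w` of prime divisors, for all characters of at most that
  length in **every** characteristic `p` prime to `m`, for infinitely many squarefree odd `m` with
  `w` prime divisors;

* for `m` not divisible by four with any number `w` of odd prime divisors `q`, if these are well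
  spaced and no `q - 1` has an odd prime divisor which is at most `K * 2 ^ (w - 2)`, and **every**
  characteristic `p`; the last condition can be weakened to one on `p`. For squarefree `m` with odd
  prime divisors `q₁ < ... < q_w` the spacing condition holds if each `qᵢ - 1` is larger than
  `K * 2 ^ w * (q₁ - 1) * ... * (qᵢ₋₁ - 1)`, and for `w = 2` it just says that both odd prime
  divisors are larger than `2 * K + 1`;
* for `m` with at most two odd prime divisors and all `p` outside of an exceptional case in which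
  an explicit odd number `span p r c > 1` attached to the two primes is at most `K`;
* for `m` with any number of odd prime divisors `q` if, for all but one of them, `-1` and `p` are
  squares modulo `q`, or `p` is a `j`-th power residue for a large odd divisor `j` of `q - 1`, and
  `p` is a square also modulo the exceptional one or has even order modulo all the others;
* in general if modulo every odd squarefree divisor `d > 1` of `m` either `-1` is a power of
  `p` or there is a suitable Dirichlet character of two-power order.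
-/

namespace Pool.Agent.Results.MP_0fca13_ag.FermatAllCharacteristics

open Pool.Agent.H916T

/-- The odd prime divisors of `m`. -/
def OddPrimes (m : ℕ) : Finset ℕ := m.primeFactors.erase 2

/-- The product of the `q ^ (v - 1)` over the odd prime powers `q ^ v` exactly dividing `m`, the
prime `q` not being in `C`. It is one if `m` is squarefree. -/
def Excess (m : ℕ) (C : Finset ℕ) : ℕ := ∏ q ∈ OddPrimes m \ C, q ^ (m.factorization q - 1)

/-- The product of the `q - 1` over the `q` in `A`. -/
def Size (A : Finset ℕ) : ℕ := ∏ q ∈ A, (q - 1)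

/-- The odd prime divisors of `m` are well spaced. -/
def WellSpaced (m K : ℕ) : Prop :=
  ∀ A B : Finset ℕ, A ⊆ OddPrimes m → B ⊆ OddPrimes m → A ∪ B ≠ OddPrimes m → A ≠ B →
    K * 2 ^ B.card * Excess m (B \ A) * Size A < Size B ∨
    K * 2 ^ A.card * Excess m (A \ B) * Size B < Size A

/-- The odd prime divisors of `m` are large. -/
def LargePrimes (m K : ℕ) : Prop :=
  ∀ r ∈ OddPrimes m, 2 * K * Excess m {r} + 1 < r

/-- After raising the degree to a suitable multiple prime to `p`, the character `s` of degree `m`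
belongs to the closure of the Tate characters of surfaces and of the standard characters. -/
def Reached (p m : ℕ) (s : Multiset (ZMod m)) : Prop :=
  ∃ N : ℕ, 0 < N ∧ p.Coprime N ∧
    Generated (N * m)
      (fun t => SurfaceTate p (N * m) t ∨ ∃ q : ℕ, q.Prime ∧ q ∣ N * m ∧ Standard q (N * m) t)
      (s.map fun a => ((N * a.val : ℕ) : ZMod (N * m)))

/-- A Dirichlet character modulo `c` which is primitive, odd, of two-power order and trivial at `p`,
and trivial at two if four divides `m`. -/
def Suitable (p m c : ℕ) (χ : DirichletCharacter ℂ c) : Prop :=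
  χ.IsPrimitive ∧ χ.Odd ∧ (∃ j : ℕ, χ ^ (2 ^ j) = 1) ∧ χ (p : ZMod c) = 1 ∧
    (4 ∣ m → χ (2 : ZMod c) = 1)

/-- There is a suitable character modulo `d`, or `d = c * r` with a prime `r` and there is a
suitable character modulo `c` which is not trivial at `r` and is trivial at the odd prime divisors
of `m` which do not divide `d`. -/
def Seen (p m d : ℕ) : Prop :=
  (∃ χ : DirichletCharacter ℂ d, Suitable p m d χ) ∨
    ∃ c r : ℕ, r.Prime ∧ c * r = d ∧ ∃ χ : DirichletCharacter ℂ c, Suitable p m c χ ∧
      χ (r : ZMod c) ≠ 1 ∧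
      ∀ q : ℕ, q.Prime → Odd q → q ∣ m → ¬ q ∣ d → χ (q : ZMod c) = 1

/-- If `p` and `r` are prime to `c` and `p` is prime to `r`, this is
`(r - 1) * lcm (ord_c p, ord_c r) / lcm (ord_r p, ord_c p)`. -/
noncomputable def span (p r c : ℕ) : ℕ :=
  (r - 1) * Nat.lcm (orderOf (p : ZMod c)) (orderOf (r : ZMod c)) /
    Nat.lcm (orderOf (p : ZMod r)) (orderOf (p : ZMod c))

/-- The condition on the two odd primes `r`, `c`, which is void unless `p` is not a square modulo
`r` and both `p` and `r` are of odd order modulo `c`. -/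
def Unexceptional (p m K r c : ℕ) : Prop :=
  ¬ IsSquare (p : ZMod r) → Odd (orderOf (p : ZMod c)) → Odd (orderOf (r : ZMod c)) →
    ¬ 4 ∣ m ∧ (span p r c = 1 ∨ K < span p r c)

/-- `p` is a `j`-th power modulo `q` for an odd divisor `j > B` of `q - 1`. -/
def PowerResidue (p q B : ℕ) : Prop :=
  ∃ j : ℕ, Odd j ∧ B < j ∧ j ∣ q - 1 ∧ ∃ x : ZMod q, x ^ j = (p : ZMod q)

/-- The conditions on `p`, `m` and `K` under which characters are reached. -/
def Conditions (p m K : ℕ) : Prop :=
  -- well spaced odd prime divisors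
  (¬ 4 ∣ m ∧ WellSpaced m K ∧
    ∀ l : ℕ, l.Prime → Odd l → l ≤ K * 2 ^ ((OddPrimes m).card - 2) →
      ¬ l ∣ Nat.totient (∏ q ∈ OddPrimes m, q) / orderOf (p : ZMod (∏ q ∈ OddPrimes m, q))) ∨
  (LargePrimes m K ∧ (4 ∣ m → ∀ q ∈ OddPrimes m, Odd (orderOf (2 : ZMod q))) ∧
    -- at most two odd prime divisors
    (((OddPrimes m).card ≤ 2 ∧
      ∀ r ∈ OddPrimes m, ∀ c ∈ OddPrimes m, r ≠ c → Unexceptional p m K r c) ∨
    -- at most one exceptional prime divisor
    (∃ q₀ : ℕ, (∀ q ∈ OddPrimes m, q ≠ q₀ →
        IsSquare (-1 : ZMod q) ∧ IsSquare (p : ZMod q) ∨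
          ¬ 4 ∣ m ∧ PowerResidue p q (K * 2 ^ ((OddPrimes m).card - 1))) ∧
      (IsSquare (p : ZMod q₀) ∨ ∀ q ∈ OddPrimes m, q ≠ q₀ → Even (orderOf (p : ZMod q)))))) ∨
  -- a general criterion
  (LargePrimes m K ∧ ∀ d : ℕ, Squarefree d → Odd d → 1 < d → d ∣ m →
    (∃ n : ℕ, (p : ZMod d) ^ n = -1) ∨ Seen p m d)

lemma mem_iff {m q : ℕ} (hm : m ≠ 0) : q ∈ OddPrimes m ↔ q.Prime ∧ Odd q ∧ q ∣ m :=
  L0h40.TS.mem_oddp hm

lemma large {m k : ℕ} (hm : m ≠ 0) (h : LargePrimes m (Nat.gcd 2 m * k)) :
    L0h40.TS.Short m k := by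
  intro r hr hro hrm
  have h1 := h r ((mem_iff hm).mpr ⟨hr, hro, hrm⟩)
  have h2 : Excess m {r} = L0h40.TS.excess m r := by
    unfold Excess L0h40.TS.excess
    apply Finset.prod_congr _ fun _ _ => rfl
    ext q
    unfold OddPrimes
    rw [Finset.mem_sdiff, Finset.mem_erase, Finset.mem_filter, Finset.mem_singleton]
    tauto
  rwa [h2] at h1

theorem reached {p m : ℕ} (hp : p.Prime) (hm : 0 < m) (hpm : p.Coprime m)
    {s : Multiset (ZMod m)} (hs : IsTate p m s) (hne : s ≠ 0)
    (hc : Conditions p m (Nat.gcd 2 m * Multiset.card s)) : Reached p m s := by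
  have : NeZero m := ⟨hm.ne'⟩
  have hmem : ∀ q : ℕ, q.Prime → Odd q → q ∣ m → q ∈ OddPrimes m := fun q h1 h2 h3 =>
    (mem_iff hm.ne').mpr ⟨h1, h2, h3⟩
  have key2 : (∀ d : ℕ, Squarefree d → Odd d → 1 < d → d ∣ m →
      L0h40.TS.Null p ((m / d : ℕ) : ZMod m) ∨ Even (Multiset.card
        (s.filter fun a => (addOrderOf a).primeFactors = d.primeFactors))) → Reached p m s := by
    intro H
    obtain ⟨N, hN, hpN, h⟩ := L0h40.TS.main2 hp hm hpm hs hne H
    exact ⟨N, hN, hpN, h (N * m) rfl⟩
  rcases hc with ⟨h4, hsp, hB⟩ | h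
  · exact key2 (L0h40.TS.spaced_all hpm hs h4 hne hsp rfl hB)
  have hl : L0h40.TS.Short m (Multiset.card s) :=
    large hm.ne' (h.elim (fun h => h.1) fun h => h.1)
  have key : (∀ d : ℕ, Squarefree d → Odd d → 1 < d → d ∣ m →
      (∃ n : ℕ, (p : ZMod d) ^ n = -1) ∨ L0h40.TS.EvenBy p m d) → Reached p m s := by
    intro H
    obtain ⟨N, hN, hpN, h⟩ := L0h40.TS.main hp hm hpm H hs hne hl
    exact ⟨N, hN, hpN, h (N * m) rfl⟩
  rcases h with ⟨-, hT', h⟩ | ⟨-, h⟩
  · have hT : 4 ∣ m → ∀ q : ℕ, q.Prime → Odd q → q ∣ m → Odd (orderOf (2 : ZMod q)) :=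
      fun h4 q h1 h2 h3 => hT' h4 q (hmem q h1 h2 h3)
    rcases h with ⟨hcard, h⟩ | ⟨q₀, h, h0⟩
    · rcases Nat.lt_or_ge (OddPrimes m).card 2 with hlt | hge
      · -- at most one odd prime divisor
        obtain ⟨q₀, hq₀⟩ : ∃ q₀ : ℕ, ∀ q ∈ OddPrimes m, q = q₀ := by
          rcases (OddPrimes m).eq_empty_or_nonempty with he | ⟨q₀, hq₀⟩
          · exact ⟨0, fun q hq => by rw [he] at hq; exact absurd hq (Finset.notMem_empty q)⟩
          · exact ⟨q₀, fun q hq => Finset.card_le_one.mp (by omega) q hq q₀ hq₀⟩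
        exact key (L0h40.TS.one_prime (q0 := q₀) hpm hT
          (fun q h1 h2 h3 hne => absurd (hq₀ q (hmem q h1 h2 h3)) hne)
          (Or.inr fun q h1 h2 h3 hne => absurd (hq₀ q (hmem q h1 h2 h3)) hne))
      · obtain ⟨q₁, q₂, hne', hset⟩ := Finset.card_eq_two.mp (le_antisymm hcard hge)
        have hm1 : q₁ ∈ OddPrimes m := by rw [hset]; simp
        have hm2 : q₂ ∈ OddPrimes m := by rw [hset]; simp
        have h1 := h q₁ hm1 q₂ hm2 hne'
        have h2 := h q₂ hm2 q₁ hm1 hne'.symm
        have hq₁ := ((mem_iff hm.ne').mp hm1).1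
        have hq₂ := ((mem_iff hm.ne').mp hm2).1
        have hoth : ∀ q : ℕ, q.Prime → Odd q → q ∣ m → q = q₁ ∨ q = q₂ := by
          intro q e1 e2 e3
          have h5 := hmem q e1 e2 e3
          rw [hset] at h5
          simpa using h5
        by_cases h4 : 4 ∣ m
        · refine key (L0h40.TS.two_primes hpm hT hq₁ hq₂ hne' hoth ?_ ?_)
          · intro e1 e2
            rw [← Nat.not_odd_iff_even]
            exact fun e3 => (h1 e1 e2 e3).1 h4
          · intro e1 e2
            rw [← Nat.not_odd_iff_even]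
            exact fun e3 => (h2 e1 e2 e3).1 h4
        · exact key2 (L0h40.TS.two_all hpm hs h4 hl hq₁ hq₂ hne' hoth
            (fun e1 e2 e3 => (h1 e1 e2 e3).2) (fun e1 e2 e3 => (h2 e1 e2 e3).2))
    · have h0' : IsSquare (p : ZMod q₀) ∨ ∀ q : ℕ, q.Prime → Odd q → q ∣ m → q ≠ q₀ →
          Even (orderOf (p : ZMod q)) :=
        h0.imp_right fun h5 q e1 e2 e3 => h5 q (hmem q e1 e2 e3)
      by_cases h4 : 4 ∣ m
      · exact key (L0h40.TS.one_prime hpm hT
          (fun q hq hqo hqm hqq => (h q (hmem q hq hqo hqm) hqq).resolve_right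
            fun h5 => h5.1 h4) h0')
      · exact key2 (L0h40.TS.many_primes hpm hs h4 hl q₀
          (fun q hq hqo hqm hqq => (h q (hmem q hq hqo hqm) hqq).imp_right fun h5 => h5.2) h0')
  · exact key h

theorem result :
    (∀ k w X : ℕ, 0 < w → ∃ m : ℕ, X < m ∧ Squarefree m ∧ Odd m ∧ m.primeFactors.card = w ∧
      ∀ p : ℕ, p.Prime → p.Coprime m → ∀ s : Multiset (ZMod m), IsTate p m s → s ≠ 0 →
        Multiset.card s ≤ k → Reached p m s) ∧
    ∀ p m : ℕ, p.Prime → 0 < m → p.Coprime m → ∀ s : Multiset (ZMod m), IsTate p m s → s ≠ 0 →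
      Conditions p m (Nat.gcd 2 m * Multiset.card s) → Reached p m s := by
  refine ⟨?_, fun p m hp hm hpm s hs hne hc => reached hp hm hpm hs hne hc⟩
  intro k w X hw
  obtain ⟨m, h1, h2, h3, h4, h5, h6, h7⟩ := L0h40.TS.exists_level k w X hw
  refine ⟨m, h1, h2, h3, h4, ?_⟩
  intro p hp hpm s hs hne hk
  have hg : Nat.gcd 2 m = 1 := Nat.coprime_two_left.mpr h3
  refine reached hp h3.pos hpm hs hne (Or.inl ⟨?_, ?_, ?_⟩)
  · intro h
    have h8 : 2 ∣ m := (by norm_num : 2 ∣ 4).trans h
    rw [← Nat.not_even_iff_odd] at h3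
    exact h3 (even_iff_two_dvd.mpr h8)
  · rw [hg, one_mul]
    exact h6 _ hk
  · intro l hl hlo hlB
    refine h7 p hpm l hl hlo (hlB.trans ?_)
    rw [hg, one_mul]
    apply Nat.mul_le_mul hk
    apply Nat.pow_le_pow_right (by norm_num)
    have h8 : (OddPrimes m).card = w := by
      rw [← h4, ← h5]; rfl
    omega

end Pool.Agent.Results.MP_0fca13_ag.FermatAllCharacteristics
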