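import Pool.Agent.L0h18.MT.Full

/-!
# The Tate conjecture for products of powers of surfaces with maximal degenerations, of powers of
# curves with semistable degenerations, and of a third variety

Let `F₀` be a finitely generated field of any characteristic with separable closure `k`, `Γ` its
Galois group, and `W` the `ℓ`-adic cohomology of the varieties over `k` with coefficients in an
algebraic closure `K` of `ℚ_ℓ`; `χ` is the inverse of the cyclotomic character, so that
`g c = χ(g)^j c` for `c ∈ H^(2j)` says that `c` is an invariant of `H^(2j)(j)`. (The theorem is proved
for an abstract Weil cohomology theory with an action of a group with the formal properties of a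
Galois action.)

* **Surfaces.** Let `X_i` be varieties over `F₀` of even dimension, for example surfaces of any
  geometric genus, for which numerical and homological equivalence coincide and whose transcendental
  cohomology `T_i` (the orthogonal complement of all algebraic classes) is in the middle degree,
  irreducible under all open subgroups, and of rank `r_i = 3` or `r_i ≥ 5`. For every `i` one of the
  following holds: an element `g_i` of `Γ` (of the inertia group at a place of maximal degeneration,
  type III) acts on `T_i` with `(g_i - 1)^3 = 0`, `(g_i - 1)^2 ≠ 0` and `g_i - 1` of rank `2`; or a
  Frobenius element acts on `T_i` with the slopes `h + c`, `h - c`, once each, and `h` (K3 type). The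
  `T_i` are not isomorphic to each other up to a twist, and for two indices of rank `8` the element is
  the same.
* **Curves.** Let `C_b`, finitely many, be varieties of odd dimension, for example curves, for which
  numerical and homological equivalence coincide and whose transcendental cohomology (for curves `H^1`)
  is in the middle degree and irreducible under all open subgroups; no two of them are isomorphic up to
  a twist, and for every `b` the elements `g` of `Γ` with `χ(g) = 1`, trivial on `H(Z)` and with
  `(g - 1)^2 = 0` on **all** `T(C_c)` (for instance elements of the inertia groups at places with
  semistable reduction; all `C_b` may have bad reduction at the same places) have defects on `T(C_b)`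
  without common prime factor (`SmallDefects`; for instance one of them has rank `1` or `2`: a place
  with one or two nodes).
* **The variety `Z`** is any variety whose cohomology algebra is generated by subspaces which are small
  with respect to the `X_i` (for example `Z` has good reduction at the places of the `g_i`).
* **The only relation between the surfaces and the curves** (`small`): `T(C_b)` is small with respect
  to `X_i`: the element `g_i` has `(g_i - 1)^2 = 0` on `T(C_b)` with the square of its rank (the toric
  rank) less than `r_i - 2` (for example `C_b` has good reduction at the place of `g_i`, with any genus),
  or `dim T(C_b) + 1 < r_i`. Nothing is assumed on the action of the elements for the curves on the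
  cohomology of the surfaces.

Let `Z₁` be the product of `Z` with arbitrary powers of the `C_b`, and `Y` the product of `Z₁` and of
`m_i` copies of `X_i`, for all `i`.

1. If the Tate conjecture holds for `Y` then it holds for `Z`.
2. If the Tate conjecture holds for `Z` and `m_i < r_i` for all `i`, then it holds for `Y` **and for
   every variety `V` dominated by `Y`** (all Tate classes in all degrees over all finite extensions are
   combinations of classes of cycles). Nothing is assumed about the Tate conjecture for the `X_i` and
   `C_b`.
3. For larger exponents the same holds for `Y` over every finite extension `F'` such that over some
   finite extension of `F'`, over which the algebraic classes are defined, the discriminant characters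
   of the `X_i` with `m_i ≥ r_i` are independent.
4. **Without any standard conjecture** (of Lefschetz or Hodge type): if `m_i < r_i` for all `i`, then
   numerical and homological equivalence coincide for `Y` if and only if they coincide for `Z`. If they
   do and the Tate conjecture holds for `Z` (for instance `Z` a point, or a product of curves and
   surfaces for which this is known), then **the full form of the Tate conjecture** holds for `Y` and
   for all dominated varieties `V`, over all finite extensions `F'` of `F₀`: for every `j` the rational
   vector space `A^j(V_F')` of the classes of cycles over `F'` has finite dimension and
   `A^j(V_F') ⊗ K → H^(2j)(V)(j)^(Gal F')` is an isomorphism (`FullTate`).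

The start library has the theorems for powers of the `X_i` over a base which is generated by small
representations (`Q71.TM`) and for powers of the `C_b` over a base on which the elements act trivially
(`V11219.Sst`); neither allows to combine the two kinds of factors, as the elements for the curves may
act in an arbitrary way on the surfaces and the elements `g_i` on the curves, and the powers of the
curves are not small. Numerical and homological equivalence are compared there only for varieties with
divisors satisfying the hard Lefschetz theorem and the standard conjectures of Lefschetz and Hodge
type, by the positivity of the intersection form.

Idea: first the curves, then the surfaces. The cohomology of `Z₁` is generated by semi-invariant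
classes, by the `T(C_b)` and by the representations for `Z`, which are small with respect to the `X_i`.
The Lie algebra of the operators which kill all equivariant multilinear maps contains the logarithm of
`g_i`, an Eichler operator, hence all of `so(T_i)`, and this argument only needs generators of the
cohomology of the base, up to semi-invariant ones. For numerical equivalence: the algebraic classes on
a power are combinations of products of the pairings of pairs of factors; over the algebraically
closed field `K` there is a basis of `T` in which the matrix of the pairing is a signed permutation
matrix, hence the products of pairings have coordinates `0`, `1`, `-1` and their intersection matrix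
is the Gram matrix of rational vectors, and the intersection form is nondegenerate on their span.
-/

universe u

namespace Pool.Agent.Results.MP_0fca13_ag.MixedProducts

open Pool.Agent.H914 Pool.Agent.L0h18.MT.S Pool.Agent.L0h18.MT.S.Coh

/-- **The Tate conjecture for products of powers of surfaces with maximal degenerations, of powers of
curves with semistable degenerations, and of a third variety.** -/
theorem result {k : Type u} [Field k] {𝒱 : VarClass k} {ops : CycleOps 𝒱}
    {W : WeilCohomology.{u, 0} ops} (hK : IsAlgClosed W.K) {Γ : Type} [Group Γ] {D : Tw W.K Γ}
    {ι β : Type} (hβ : Finite β) {l : ι → Loc W.K Γ} {r : ι → ℕ} {X : ι → GV W Γ}
    {C : β → GV W Γ} {Z : GV W Γ}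
    (h : Mixed D l r (fun i => coh (X i)) (fun b => coh (C b)) (coh Z))
    {m' : β → ℕ} {Z₁ : GV W Γ} (hZ₁ : Tower C Z m' Z₁)
    {m : ι → ℕ} {Y : GV W Γ} (hY : Tower X Z₁ m Y) :
    ((coh Y).Tate D → (coh Z).Tate D) ∧
    ((coh Z).Tate D → (∀ i, m i < r i) →
      (coh Y).Tate D ∧ ∀ V : GV W Γ, Dominates Y V → (coh V).Tate D) ∧
    ((coh Z).Tate D → (coh Y).Galois D → ∀ Δ' : Subgroup Γ, Δ'.FiniteIndex →
      (∃ Δ ≤ Δ', Δ.FiniteIndex ∧ (∀ i, m i ≠ 0 → (coh (X i)).AlgDefined D Δ) ∧
        (coh Z₁).AlgDefined D Δ ∧
        IndepOn Δ (fun i => (coh (X i)).discr D) {i | r i ≤ m i}) → (coh Y).TateOver D Δ') ∧
    ((coh Y).Galois D → (∀ i, m i < r i) → ((coh Y).HomEqNum ↔ (coh Z).HomEqNum) ∧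
      ((coh Z).Tate D → (coh Z).HomEqNum → ∀ V : GV W Γ, V = Y ∨ Dominates Y V →
        (coh V).Galois D → (coh V).HomEqNum ∧
          ∀ Δ : Subgroup Γ, Δ.FiniteIndex → (coh V).FullTate D Δ)) :=
  Pool.Agent.L0h18.MT.final'' hK hβ h hZ₁ hY

end Pool.Agent.Results.MP_0fca13_ag.MixedProducts
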