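import Pool.Agent.L0h22.SX.Fin
import Pool.Agent.L0h63.SX.D1
import Pool.Agent.L0h63.SX.D2
import Pool.Agent.L0h57.SX.TAN
import Pool.Agent.L0h92.SX.SQF
import Pool.Agent.L0h22.SL.SUnr
import Pool.Agent.L0h22.SL.SUh
import Pool.Agent.L0h22.SL.STra
import Pool.Agent.L0h22.TC.MQ
import Pool.Agent.L0h22.TC.JRank
import Pool.Agent.L0h22.TC.LanW
import Pool.Agent.L0h22.TC.SmW
import Pool.Agent.L0h22.TC.CharX
import Pool.Agent.L0h22.TC.Landau
import Pool.Agent.L0h22.TC.TLow
import Pool.Agent.L0h22.TC.Smooth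
import Pool.Agent.L0h22.TC.PrimeCount

/-!
# A positive proportion of all the quadratic twists of several ordinary elliptic curves over
# `F_q(t)`, simultaneously, in characteristic two, and an explicit proportion under arbitrary
# local conditions of deep ramification

`k` is a finite field of characteristic two and `K = k(t)`.  Every ordinary elliptic curve over `K`
is `U a c : y² + x y = x³ + a x² + c` for some `c ≠ 0` (`j = 1 / c`); its quadratic twists are the
curves `U (a + x) c`, where `x` runs through `K` modulo the subgroup `wp` of the elements `z² + z`,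
and the twist depends only on the class of `x`.  The classes are ordered by the degree `cond k x`
of their conductor: the sum, over the places `v` of `K` at which the class is ramified, of
`(ro v x + 1) deg v`, where `ro v x` is the smallest order of a pole at `v` of an element
`x + z² + z`.  `Tws k _ M` is the set of the classes with `cond ≤ M`.

The theorem treats any finite set of pairwise independent ordinary curves at once: the curves
`U a c`, `a ∈ 𝒜`, `c ∈ 𝒞`, where no two elements of `𝒜` differ by an element `z² + z`.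

`Out k S₀ 𝒜 𝒞`: outside the finite set of primes `S₀` the elements of `𝒜` are integral and those of
`𝒞` units.  `Deep k S₀ 𝒜 𝒞 x`: at infinity and at the primes of `S₀` the order `ro v x` is larger
than the orders of the poles of the elements of `𝒜` and of `𝒞`.  `Lc k S₀ Λ`: `Λ` is a local
condition at infinity and at the primes of `S₀`, i.e. it is unchanged if an element `w` with
`ro v w = 0` at all these places is added.  `Ram k _ Λ M`: the classes with `cond ≤ M` and `Λ`.
-/

set_option autoImplicit false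
set_option linter.all false

open Polynomial Filter

namespace Pool.Agent.Results.MP_0fca13_ag.SeveralCurvesLocalConditions

open Pool.Agent.L0h22.AS Pool.Agent.L0h22.TC Pool.Agent.L0h22.SL Pool.Agent.L0h22.SX

/-- `L` is generated over `K` by the roots `θ i` of the polynomials `z² + z + w i`. -/
def Gen {K L : Type} [Field K] [Field L] [Algebra K L] {n : ℕ} (w : Fin n → K) (θ : Fin n → L) :
    Prop :=
  (∀ i, θ i ^ 2 + θ i = algebraMap K L (w i)) ∧ Algebra.adjoin K (Set.range θ) = ⊤

/-- The curve `U (a + x) c` has finitely many points over each extension `L` of `K` generated by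
elements `θ i` with `θ i ^ 2 + θ i = w i ∈ K` such that all the elements `a + ∑_{i ∈ I} w i` belong
to `𝒜`. -/
def FinOver {K : Type} [Field K] (𝒜 : Finset K) (a x c : K) : Prop :=
  ∀ (n : ℕ) (L : Type) [Field L] [Algebra K L] (w : Fin n → K) (θ : Fin n → L), Gen w θ →
    (∀ I : Finset (Fin n), a + ∑ i ∈ I, w i ∈ 𝒜) →
    Finite (U (algebraMap K L (a + x)) (algebraMap K L c)).toAffine.Point

/-- **Theorem.** Let `k` be a finite field of characteristic two, `K = k(t)`, let `𝒜` be a finite
subset of `K` no two elements of which differ by an element of the form `z² + z`, and let `𝒞` be a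
nonempty finite set of nonzero elements of `K`.  There is a finite set of primes `S₀` with
`Out k S₀ 𝒜 𝒞`; and for each such `S₀` the condition `Deep k S₀ 𝒜 𝒞` is a local one and satisfied by
some elements.  Let `Λ` be any local condition which implies it and is satisfied by some element.
Then

* the classes with `Λ` are a positive proportion of all the classes of `K` modulo `{z² + z}` of
  conductor degree at most `M`, as `M → ∞`;
* for all large `M` at least the proportion `0.288 ^ #𝒜` of the classes `α` with `Λ` of conductor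
  degree at most `M` has the following property: for all `x ∈ α`, `a ∈ 𝒜` and `c ∈ 𝒞` the twist
  `E = U (a + x) c` and its Frobenius twist `E'` have finitely many points over `K`, the 2-primary
  part of the Tate-Shafarevich group of `E'` is zero and the one of `E` is killed by 2; and `E` has
  finitely many points over each multiquadratic extension `K(θ₁, …, θₙ)`, `θᵢ² + θᵢ = wᵢ`, such
  that all the `a + ∑_{i ∈ I} wᵢ` belong to `𝒜`. -/
theorem result {k K : Type} [Field k] [Finite k] [Field K] [CharP K 2] [Algebra k[X] K]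
    [IsFractionRing k[X] K] (𝒜 𝒞 : Finset K)
    (h𝒜 : ∀ a ∈ 𝒜, ∀ a' ∈ 𝒜, a ≠ a' → ¬ ∃ z : K, z ^ 2 + z = a + a') (h𝒞 : ∀ c ∈ 𝒞, c ≠ 0)
    (h𝒞' : 𝒞.Nonempty) :
    (∃ S₀ : Finset k[X], Out k S₀ 𝒜 𝒞) ∧
    ∀ S₀ : Finset k[X], Out k S₀ 𝒜 𝒞 →
      (Lc k S₀ (Deep k S₀ 𝒜 𝒞) ∧ ∃ x : K, Deep k S₀ 𝒜 𝒞 x) ∧
      ∀ Λ : K → Prop, Lc k S₀ Λ → (∀ x, Λ x → Deep k S₀ 𝒜 𝒞 x) → (∃ x, Λ x) →
        (∃ δ : ℝ, 0 < δ ∧ ∀ᶠ M : ℕ in atTop, (Tws (K := K) k CharTwo.two_eq_zero M).Finite ∧
          0 < (Ram k CharTwo.two_eq_zero Λ M).ncard ∧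
          δ * ((Tws (K := K) k CharTwo.two_eq_zero M).ncard : ℝ) ≤
            ((Ram k CharTwo.two_eq_zero Λ M).ncard : ℝ)) ∧
        ∀ᶠ M : ℕ in atTop,
          (288 / 1000 : ℝ) ^ 𝒜.card * ((Ram k CharTwo.two_eq_zero Λ M).ncard : ℝ) ≤
            ({α ∈ Ram k CharTwo.two_eq_zero Λ M | ∀ x : K, QuotientAddGroup.mk x = α →
              ∀ a ∈ 𝒜, ∀ c ∈ 𝒞, Settled k (a + x) c ∧ FinOver 𝒜 a x c}.ncard : ℝ) := by
  have h20 : (2 : K) = 0 := CharTwo.two_eq_zero
  have h2 : (2 : k) = 0 := by
    have h : algebraMap k[X] K (C 2) = 0 := by rw [map_ofNat C 2, map_ofNat, h20]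
    have h' := (map_eq_zero_iff _ (IsFractionRing.injective k[X] K)).1 h
    exact C_eq_zero.1 h'
  have hD1 := Pool.Agent.L0h63.SX.t_D1
  have hD2 := Pool.Agent.L0h63.SX.t_D2
  refine ⟨exists_out 𝒜 𝒞 h𝒞, fun S₀ hO => ⟨⟨Deep.lc h20 S₀ 𝒜 𝒞, ?_⟩, ?_⟩⟩
  · obtain ⟨b, hb, -⟩ := exb (k := k) hO.pr 𝒜 𝒞
    exact ⟨b, hb⟩
  · intro Λ hΛ hd hne
    obtain ⟨δ, hδ, hpos⟩ := fin_pos (k := k) h2 h20 transfer tlower hD1 hD2 hO.pr hΛ hne
    refine ⟨⟨δ, hδ, ?_⟩, ?_⟩
    · filter_upwards [hpos] with M hM
      exact ⟨Tws_finite (k := k) h20 M, hM.1, hM.2⟩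
    · filter_upwards [fin_lower h2 h20 locUnr tvPs uhLim transfer jointRank
        (landau_of primeCount) charEx (landauW_of primeCount) (smoothW_of smooth) tlower
        Pool.Agent.L0h57.SX.t_TAN Pool.Agent.L0h92.SX.t_SQF hD1 hD2 h𝒜 h𝒞 h𝒞' hO hΛ hd hne]
        with M hM
      refine hM.trans ?_
      have hsub : {α ∈ Ram k h20 Λ M | ∀ x : K, QuotientAddGroup.mk x = α → ∀ a ∈ 𝒜,
          ∀ c ∈ 𝒞, Settled k (a + x) c} ⊆ {α ∈ Ram k h20 Λ M | ∀ x : K,
          QuotientAddGroup.mk x = α → ∀ a ∈ 𝒜, ∀ c ∈ 𝒞,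
            Settled k (a + x) c ∧ FinOver 𝒜 a x c} := by
        rintro α ⟨h5, h6⟩
        refine ⟨h5, fun x hx a ha c hc => ⟨h6 x hx a ha c hc, ?_⟩⟩
        intro n L _ _ w θ hθ hI
        refine fin_multi n K L h20 (a + x) c (h𝒞 c hc) w θ hθ.1 hθ.2 fun I => ?_
        have h7 := (h6 x hx _ (hI I) c hc).fin
        have e : a + ∑ i ∈ I, w i + x = a + x + ∑ i ∈ I, w i := by ring
        rwa [e] at h7
      exact_mod_cast Set.ncard_le_ncard hsub ((Ram_finite (k := k) h20 Λ M).subset
        fun α h => h.1)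

end Pool.Agent.Results.MP_0fca13_ag.SeveralCurvesLocalConditions
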