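import Pool.Agent.L0h22.PT.N874.Final
import Pool.Agent.N874.JM.Gnu
import Pool.Agent.N874.Jac.Def

/-!
# The Tate conjecture for a positive proportion of all odd hyperelliptic surfaces over Galois 2-covers
of the line, in every odd characteristic

Let `g ≥ 1`, let `k` be ANY finite field of odd characteristic, `K = k(t)`, and let `M` be ANY finite Galois
extension of `K` whose degree is a power of two: `M` is the function field of a curve `B` over a finite
field `k'` (the constants of `M`) with a map to the line. We consider ALL the equations
`y ^ 2 = x ^ n + a_(n - 1) x ^ (n - 1) + ... + a_0`, `n = 2 g + 1`, with `a_j ∈ k[t]`,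
`deg a_j ≤ N (n - j)`. (For `B = ℙ^1` these are all the surfaces with a fibration in curves of genus `g` of
degree two over the line with a section of Weierstrass points; for `g = 1` these are all the elliptic
surfaces over the line, for instance in characteristic three.)

Theorem. There is `c > 0` such that for all large `N` at least `c` times the number of ALL the equations of
height at most `N` are minimal, have `f` irreducible and without multiple roots, and the Jacobian `J` of the
curve `y ^ 2 = f(x)` over `M` has the following property: multiplication by two is bijective on `J(M)` and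
all classes of 2-power order in the Tate-Shafarevich group of `J` over `M` are zero, even without conditions
at the places over infinity.

Let `X` be a smooth projective surface over `k'` with a map to `B` with generic fibre `y ^ 2 = f(x)`; it has
a section. The Brauer group of `X` is the Tate-Shafarevich group of `J` (Artin, Grothendieck), so its
2-primary part is zero, and by the theorem of Artin, Tate and Milne the Tate conjecture for divisors holds
for `X`, at all primes `ℓ`; `J(M)` is a finite group of odd order (Lang, Neron), so the Neron-Severi group
of `X` is generated, up to an odd index, by the components of the fibres and the section.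

Known before (`MP_89bcae_ag.SurfacesOverTwoCovers` of the starting library): the same for fields of
characteristic larger than `2 g + 1`, where one may assume that `f` has no term of degree `2 g`. The methods
which count orbits (Bhargava, Shankar, Gross; Ho, Le Hung, Ngo for elliptic curves over function fields)
exclude small characteristics, for elliptic curves characteristic three, for two reasons: the equation
cannot be normalised, and the sieve for squarefree discriminants needs the discriminant to be a
polynomial in the constant term with a constant leading coefficient and with a discriminant which is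
of a known degree in `a_1`. Here both are overcome:

* The parametrisation by self-dual lattices with a self-adjoint operator is carried out without the
  condition that the trace is zero; all exponents change from `2 g ^ 2 + 3 g` to `2 g ^ 2 + 3 g + 1`.
* The discriminant as a polynomial `F(y)` in the constant term is, for general coefficients, of degree
  `2 g` or, if the characteristic divides `2 g + 1`, of degree `2 g - 1` with a nonconstant leading
  coefficient; that it is separable for general coefficients is shown with the product formula over the
  critical points of the polynomials `x ^ n + x`, `x ^ n + x ^ 2` and `x ^ n + x ^ (n - 1) + α x`, according to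
  the residue of `n` modulo the characteristic. The number of coefficients for which `F` is not separable
  modulo a prime is bounded by the lemma of Schwartz and Zippel, and the primes `P` modulo which `F` is
  identically zero divide `a_1` and `a_2`. With this the density at the small primes and the method of
  Poonen for the large primes (now all primes of degree larger than about `N`) go through in all odd
  characteristics.

Project PT (helper22), after projects JM, PM, PJ and JB of the starting library (helper874, helper352 and
many others, see `MP_89bcae_ag.SurfacesOverTwoCovers`); the files in `L0h22/PT/N*` are files of these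
projects with the condition on the trace removed, the files `Gen`, `Gen2`, `LD`, `LP1`, `LP`, `Exs`, `Min`
are new or contain the new arguments.
-/

set_option autoImplicit false
set_option linter.all false

namespace Pool.Agent.Results.MP_0fca13_ag.SurfacesOddCharacteristic

open Polynomial Filter IsDedekindDomain
open Pool.Agent.N874.Jac (UniquelyTwoDivisible ShaTwoTrivial)
open scoped Classical

/-- `y ^ 2 = f(x, t)` is an equation of genus `g` and height at most `N`: `f` is monic of degree `2 g + 1` in
`x` and the coefficient of `x ^ j` is a polynomial in `t` of degree at most `N (2 g + 1 - j)`. -/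
structure IsEquation {k : Type} [Field k] (g N : ℕ) (f : k[X][X]) : Prop where
  monic : f.Monic
  degree : f.natDegree = 2 * g + 1
  height : ∀ j ≤ 2 * g, (f.coeff j).natDegree ≤ N * (2 * g + 1 - j)

/-- All the equations of genus `g` and height at most `N`. -/
def Equations (k : Type) [Field k] (g N : ℕ) : Set k[X][X] :=
  {f | IsEquation g N f}

/-- The equation is minimal: there are no irreducible `P` and `s` such that in the translate `f(x + s)` the
coefficient of `x ^ j` is divisible by `P ^ (2 (2 g + 1 - j))` for all `j`. -/
def IsMinimal {k : Type} [Field k] (g : ℕ) (f : k[X][X]) : Prop :=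
  ∀ P : k[X], Irreducible P → ∀ s : k[X],
    ¬ ∀ j < 2 * g + 1, P ^ (2 * (2 * g + 1 - j)) ∣ (f.comp (X + C s)).coeff j

/-- Multiplication by two is bijective on `J(M)`, `J` the Jacobian of `y ^ 2 = F(x)`, and every class of
2-power order in `H ^ 1 (M, J)` which is zero over the completions of `M` at all maximal ideals of `R` is
zero. -/
def NoTwoPart (R : Type) {M : Type} [Field M] [CommRing R] [IsDedekindDomain R] [Algebra R M]
    [IsFractionRing R M] (F : M[X]) : Prop :=
  UniquelyTwoDivisible F ∧ ShaTwoTrivial F R

/-- The equations of genus `g` and height at most `N` which are minimal, for which `f` is irreducible over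
`K` without multiple roots and the curve `y ^ 2 = f(x)` over `M` has no 2-part. -/
def TrivialTwoPart (R : Type) (M : Type) [Field M] [CommRing R] [IsDedekindDomain R] [Algebra R M]
    [IsFractionRing R M] (k : Type) [Field k] (K : Type) [Field K] [Algebra k[X] K]
    [Algebra k[X] M] (g N : ℕ) : Set k[X][X] :=
  {f ∈ Equations k g N | IsMinimal g f ∧ (f.map (algebraMap k[X] K)).Separable ∧
    Irreducible (f.map (algebraMap k[X] K)) ∧ NoTwoPart R (f.map (algebraMap k[X] M))}

/-- For every `g ≥ 1`, every finite field `k` of odd characteristic and every finite Galois extension `M` of
`K = k(t)` of degree `2 ^ n` there is a positive constant `c` such that for all large `N` at least `c` times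
the number of all equations `y ^ 2 = f(x, t)` of genus `g` and height at most `N` are minimal, have `f`
irreducible and separable over `K`, and define a curve over `M` whose Jacobian `J` has the property that
multiplication by two is bijective on `J(M)` and the 2-primary part of the Tate-Shafarevich group of `J`
over `M` is zero. Here `R` is the integral closure of `k[t]` in `M`. -/
theorem result (g : ℕ) (hg : 1 ≤ g) (k : Type) [Field k] [Finite k]
    (hp : (2 : k) ≠ 0) (K : Type) [Field K] [Algebra k[X] K]
    [IsFractionRing k[X] K] (M : Type) [Field M] [Algebra K M] [Algebra k[X] M]
    [IsScalarTower k[X] K M] [FiniteDimensional K M] [IsGalois K M] (n : ℕ)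
    (hn : Module.finrank K M = 2 ^ n) (R : Type) [CommRing R] [IsDedekindDomain R] [Algebra R M]
    [IsFractionRing R M] [Algebra k[X] R] [IsScalarTower k[X] R M] [IsIntegralClosure R k[X] M] :
    (∀ N : ℕ, (Equations k g N).Finite) ∧
    ∃ c : ℝ, 0 < c ∧ ∀ᶠ N : ℕ in atTop, 0 < (Equations k g N).ncard ∧
      c * ((Equations k g N).ncard : ℝ) ≤ ((TrivialTwoPart R M k K g N).ncard : ℝ) := by
  have heq : ∀ N, Equations k g N = {f : k[X][X] | Pool.Agent.L0h22.PT.Ht1 g N f} := by
    intro N
    ext f
    exact ⟨fun hf => ⟨hf.monic, hf.degree, hf.height⟩, fun hf => ⟨hf.mon, hf.deg, hf.ht⟩⟩
  have hfin : ∀ N, (Equations k g N).Finite := fun N => by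
    rw [heq N]
    exact (Pool.Agent.L0h22.PT.N415MAIN.ht_card (k := k) g N).1
  refine ⟨hfin, ?_⟩
  obtain ⟨c, hc, N₀, hN₀⟩ := Pool.Agent.L0h22.PT.N874.final k hg hp K M R hn
  refine ⟨c, hc, ?_⟩
  filter_upwards [eventually_ge_atTop N₀] with N hN
  obtain ⟨hHt, hle⟩ := hN₀ N hN
  have hsub2 : {f : k[X][X] | Pool.Agent.L0h22.PT.Ht1 g N f ∧ Pool.Agent.L0h22.PT.MinimalEq g f ∧
      (f.map (algebraMap k[X] K)).Separable ∧ Irreducible (f.map (algebraMap k[X] K)) ∧
      Pool.Agent.N874.JM.SelF R (f.map (algebraMap k[X] M))} ⊆
      TrivialTwoPart R M k K g N :=
    fun f hf => by
      obtain ⟨h4, h5⟩ := Pool.Agent.N874.JM.genuine K M R hn hp hf.1.mon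
        (by rw [hf.1.deg]; exact odd_two_mul_add_one g) hf.2.2.1 hf.2.2.2.1 hf.2.2.2.2
      exact ⟨⟨hf.1.mon, hf.1.deg, hf.1.ht⟩, hf.2.1, hf.2.2.1, hf.2.2.2.1,
        Pool.Agent.N874.Jac.div_of _ h4, Pool.Agent.N874.Jac.sha_of _ R h5⟩
  have hfin2 : (TrivialTwoPart R M k K g N).Finite := (hfin N).subset fun f hf => hf.1
  have h1 := Set.ncard_le_ncard hsub2 hfin2
  have h2 : c * ((Equations k g N).ncard : ℝ) ≤ ((TrivialTwoPart R M k K g N).ncard : ℝ) := by
    rw [heq N]
    exact hle.trans (by exact_mod_cast h1)
  have hne : 0 < (Equations k g N).ncard := by
    rw [Set.ncard_pos (hfin N)]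
    refine ⟨X ^ (2 * g + 1), monic_X_pow _, natDegree_X_pow _, fun j hj => ?_⟩
    rw [coeff_X_pow, if_neg (by omega), natDegree_zero]
    exact Nat.zero_le _
  exact ⟨hne, h2⟩

end Pool.Agent.Results.MP_0fca13_ag.SurfacesOddCharacteristic
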